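import Pool.Agent.Helper59.AN.Goals

/-!
# Packet VAL: the value of a game
-/

noncomputable section

namespace AN.PkVAL

open AN

section Lemmas

variable {L : Type} [CompleteBooleanAlgebra L]

lemma compl_swap {d u v : L} (h : d ⊓ u = d ⊓ v) : d ⊓ uᶜ = d ⊓ vᶜ := by
  have key : ∀ {p q : L}, d ⊓ p = d ⊓ q → d ⊓ pᶜ ≤ d ⊓ qᶜ := by
    intro p q hpq
    refine le_inf inf_le_left ?_
    rw [le_compl_iff_disjoint_left, disjoint_iff_inf_le]
    calc q ⊓ (d ⊓ pᶜ) = (d ⊓ q) ⊓ pᶜ := by rw [← inf_assoc, inf_comm q d]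
      _ = (d ⊓ p) ⊓ pᶜ := by rw [hpq]
      _ = d ⊓ (p ⊓ pᶜ) := by rw [inf_assoc]
      _ ≤ ⊥ := by simp
  exact le_antisymm (key h) (key h.symm)

/-- the supremum of the moves at a terminal node -/
lemma term (a : List ℕ → Finset ℕ → L) (A : Set ℕ) (y : ℕ → L) (s : List ℕ)
    (hs : 2 * Encodable.encode s ∉ A) :
    (⨆ m, Wv a A y s m) = ⨆ σ : Finset ℕ, ⨆ _ : CylS σ A, a s σ := by
  classical
  apply le_antisymm
  · apply iSup_le
    intro m
    unfold Wv
    rw [if_neg hs]
    split_ifs with h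
    · exact le_iSup_of_le (Denumerable.ofNat (Finset ℕ) m) (le_iSup_of_le h le_rfl)
    · exact bot_le
  · apply iSup_le
    intro σ
    apply iSup_le
    intro h
    obtain ⟨m, rfl⟩ : ∃ m, Denumerable.ofNat (Finset ℕ) m = σ :=
      ⟨@Encodable.encode (Finset ℕ) Denumerable.toEncodable σ, Denumerable.ofNat_encode σ⟩
    refine le_iSup_of_le m ?_
    unfold Wv
    rw [if_neg hs, if_pos h]

lemma nonterm (a : List ℕ → Finset ℕ → L) (A : Set ℕ) (y : ℕ → L) (s : List ℕ)
    (hs : 2 * Encodable.encode s ∈ A) (m : ℕ) :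
    Wv a A y s m = y (Encodable.encode (m :: s)) := by
  unfold Wv
  rw [if_pos hs]

end Lemmas

theorem val : G_COD → G_VAL := by
  intro hCOD L _ a
  obtain ⟨γ, kp, kn, H⟩ := hCOD L a
  refine ⟨γ, ?_⟩
  intro A g hwf h1 h2
  unfold beta
  apply le_antisymm
  · apply iSup_le
    intro y
    obtain ⟨c0, cp, cn, call⟩ := H A y
    set d : L := ⨅ k, Ov γ k (ch A) y with hd
    have d0 : d ≤ y (Encodable.encode ([] : List ℕ)) := by
      rw [← c0]
      exact iInf_le _ 0
    have dp : ∀ s m, d ≤ (y (Encodable.encode s) ⊓ Wv a A y s m)ᶜ := by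
      intro s m
      rw [← cp s m]
      exact iInf_le _ _
    have dn : ∀ s, d ≤ y (Encodable.encode s) ⊔ ⨆ m, Wv a A y s m := by
      intro s
      rw [← cn s]
      exact iInf_le _ _
    have step : ∀ s, d ⊓ y (Encodable.encode s) = d ⊓ (⨆ m, Wv a A y s m)ᶜ := by
      intro s
      apply le_antisymm
      · refine le_inf inf_le_left ?_
        rw [le_compl_iff_disjoint_left, disjoint_iff_inf_le, iSup_inf_eq]
        apply iSup_le
        intro m
        calc Wv a A y s m ⊓ (d ⊓ y (Encodable.encode s))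
            = (y (Encodable.encode s) ⊓ Wv a A y s m) ⊓ d := by
              rw [inf_comm d, ← inf_assoc, inf_comm (Wv a A y s m)]
          _ ≤ (y (Encodable.encode s) ⊓ Wv a A y s m) ⊓
              (y (Encodable.encode s) ⊓ Wv a A y s m)ᶜ := inf_le_inf_left _ (dp s m)
          _ ≤ ⊥ := (inf_compl_eq_bot).le
      · refine le_inf inf_le_left ?_
        calc d ⊓ (⨆ m, Wv a A y s m)ᶜ
            ≤ (y (Encodable.encode s) ⊔ ⨆ m, Wv a A y s m) ⊓ (⨆ m, Wv a A y s m)ᶜ :=
              inf_le_inf_right _ (dn s)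
          _ = y (Encodable.encode s) ⊓ (⨆ m, Wv a A y s m)ᶜ := by
              rw [inf_sup_right, inf_compl_eq_bot, sup_bot_eq]
          _ ≤ y (Encodable.encode s) := inf_le_left
    have ind : ∀ s, d ⊓ y (Encodable.encode s) = d ⊓ g s := by
      intro s
      induction s using hwf.induction with
      | _ s ih =>
        rw [step s]
        by_cases hs : 2 * Encodable.encode s ∈ A
        · rw [h1 s hs]
          apply compl_swap
          rw [inf_iSup_eq, inf_iSup_eq]
          apply iSup_congr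
          intro m
          rw [nonterm a A y s hs m]
          exact ih (m :: s) ⟨hs, m, rfl⟩
        · rw [h2 s hs, term a A y s hs]
    calc d ≤ d ⊓ y (Encodable.encode ([] : List ℕ)) := le_inf le_rfl d0
      _ = d ⊓ g [] := ind []
      _ ≤ g [] := inf_le_right
  · let y : ℕ → L := fun n => match (Encodable.decode n : Option (List ℕ)) with
      | some s => g s
      | none => ⊥
    have hy : ∀ s : List ℕ, y (Encodable.encode s) = g s := by
      intro s
      simp only [y, Encodable.encodek]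
    obtain ⟨c0, cp, cn, call⟩ := H A y
    have hW : ∀ s, (⨆ m, Wv a A y s m) = (g s)ᶜ := by
      intro s
      by_cases hs : 2 * Encodable.encode s ∈ A
      · rw [h1 s hs, compl_compl]
        apply iSup_congr
        intro m
        rw [nonterm a A y s hs m, hy]
      · rw [h2 s hs, compl_compl, term a A y s hs]
    refine le_iSup_of_le y ?_
    apply le_iInf
    intro k
    rcases call k with h | ⟨s, m, h⟩ | ⟨s, h⟩ | h
    · rw [h, c0, hy]
    · rw [h, cp, hy]
      have : Wv a A y s m ≤ (g s)ᶜ := by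
        rw [← hW s]
        exact le_iSup (fun m => Wv a A y s m) m
      have h3 : g s ⊓ Wv a A y s m = ⊥ := by
        rw [eq_bot_iff]
        calc g s ⊓ Wv a A y s m ≤ g s ⊓ (g s)ᶜ := inf_le_inf_left _ this
          _ ≤ ⊥ := by simp
      rw [h3, compl_bot]
      exact le_top
    · rw [h, cn, hy, hW, sup_compl_eq_top]
      exact le_top
    · rw [h]
      exact le_top

end AN.PkVAL
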